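import Mathlib
import Pool.Agent.H.MP_2a9801_co.Core

set_option autoImplicit false

namespace Pool.Agent.Results.MP_2a9801_co.Five

open MvPolynomial Pool.Agent.H.MP_2a9801_co

/-- Matchings of `G`: finite sets of edges, any two different ones having no common vertex. -/
def Mat {d : ℕ} (G : SimpleGraph (Fin d)) : Type :=
  {m : Finset (Sym2 (Fin d)) //
    (∀ e ∈ m, e ∈ G.edgeSet) ∧ ∀ e ∈ m, ∀ f ∈ m, e ≠ f → ∀ x, x ∈ e → x ∉ f}

/-- Toric ideal of the matching polytope: kernel of `x_m ↦ s * ∏ e ∈ m, t_e`. -/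
noncomputable def toric (K : Type) [Field K] {d : ℕ} (G : SimpleGraph (Fin d)) :
    Ideal (MvPolynomial (Mat G) K) :=
  RingHom.ker (aeval (fun m : Mat G => X none * ∏ e ∈ m.1, X (some e)) :
    MvPolynomial (Mat G) K →ₐ[K] MvPolynomial (Option (Sym2 (Fin d))) K)

def E (i : Fin 16) : Sym2 (Fin 10) := s(ea i, eb i)

theorem E_inj : Function.Injective E := fun i j h => e_inj i j (Sym2.eq_iff.1 h)

def G0 : SimpleGraph (Fin 10) := SimpleGraph.fromEdgeSet (Set.range E)

theorem mem_G0 (e : Sym2 (Fin 10)) : e ∈ G0.edgeSet ↔ ∃ i, E i = e := by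
  unfold G0
  rw [SimpleGraph.edgeSet_fromEdgeSet]
  constructor
  · exact fun h => h.1
  · rintro ⟨i, rfl⟩
    exact ⟨⟨i, rfl⟩, by simpa [E] using e_ne i⟩

theorem touch_iff (i j : Fin 16) : touch i j ↔ ∃ x, x ∈ E i ∧ x ∈ E j := by
  unfold touch E
  simp only [Sym2.mem_iff]
  constructor
  · rintro (h | h | h | h)
    · exact ⟨_, Or.inl rfl, Or.inl h⟩
    · exact ⟨_, Or.inl rfl, Or.inr h⟩
    · exact ⟨_, Or.inr rfl, Or.inl h⟩
    · exact ⟨_, Or.inr rfl, Or.inr h⟩
  · rintro ⟨x, rfl | rfl, h | h⟩ <;> tauto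

def pm (k : Fin 8) : Mat G0 :=
  ⟨(Finset.univ.filter fun i => pat k i = true).image E, by
    constructor
    · intro e he
      obtain ⟨i, -, rfl⟩ := Finset.mem_image.1 he
      exact (mem_G0 _).2 ⟨i, rfl⟩
    · intro e he f hf hne x hx hx'
      obtain ⟨i, hi, rfl⟩ := Finset.mem_image.1 he
      obtain ⟨j, hj, rfl⟩ := Finset.mem_image.1 hf
      exact hne (congrArg E (pat_m k i j (Finset.mem_filter.1 hi).2 (Finset.mem_filter.1 hj).2
        ((touch_iff i j).2 ⟨x, hx, hx'⟩)))⟩

def bits (m : Mat G0) (i : Fin 16) : Bool := decide (E i ∈ m.1)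

theorem bits_pm (k : Fin 8) : bits (pm k) = pat k := by
  funext i
  unfold bits pm
  rw [Bool.eq_iff_iff, decide_eq_true_iff, E_inj.mem_finset_image, Finset.mem_filter]
  exact and_iff_right (Finset.mem_univ _)

theorem bits_inj (m m' : Mat G0) (h : bits m = bits m') : m = m' := by
  apply Subtype.ext
  ext e
  by_cases he : ∃ i, E i = e
  · obtain ⟨i, rfl⟩ := he
    exact decide_eq_decide.1 (congrFun h i)
  · exact ⟨fun h1 => absurd ((mem_G0 e).1 (m.2.1 e h1)) he,
      fun h1 => absurd ((mem_G0 e).1 (m'.2.1 e h1)) he⟩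

noncomputable def rho (m : Mat G0) : Option (Sym2 (Fin 10)) →₀ ℕ :=
  Finsupp.single none 1 + ∑ e ∈ m.1, Finsupp.single (some e) 1

theorem rho_none (m : Mat G0) : rho m none = 1 := by
  simp [rho, Finsupp.finsetSum_apply]

theorem rho_some (m : Mat G0) (e : Sym2 (Fin 10)) :
    rho m (some e) = if e ∈ m.1 then 1 else 0 := by
  simp [rho, Finsupp.finsetSum_apply, Finsupp.single_apply]

theorem rho_E (m : Mat G0) (i : Fin 16) : rho m (some (E i)) = (bits m i).toNat := by
  rw [rho_some]; unfold bits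
  by_cases h : E i ∈ m.1 <;> simp [h]

noncomputable def comb (c : Fin 8 → ℕ) : Mat G0 →₀ ℕ := ∑ k, c k • Finsupp.single (pm k) 1

theorem A_comb (c : Fin 8 → ℕ) (o : Option (Sym2 (Fin 10))) :
    Finsupp.linearCombination ℕ rho (comb c) o = ∑ k, c k * rho (pm k) o := by
  simp [comb, map_sum, Finsupp.finsetSum_apply]

theorem A_deg (w : Mat G0 →₀ ℕ) : Finsupp.linearCombination ℕ rho w none = w.degree := by
  rw [Finsupp.linearCombination_apply, Finsupp.sum, Finsupp.finsetSum_apply]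
  simp only [Finsupp.smul_apply, rho_none, smul_eq_mul, mul_one]
  rfl

theorem deg_u : (comb cu).degree = 4 + 1 := by
  rw [← A_deg, A_comb]
  simp only [rho_none, mul_one, cu_sum]

theorem A_uv : Finsupp.linearCombination ℕ rho (comb cu) =
    Finsupp.linearCombination ℕ rho (comb cv) := by
  ext o
  rw [A_comb, A_comb]
  rcases o with _ | e
  · simp only [rho_none, mul_one, cu_sum, cv_sum]
  · by_cases he : ∃ i, E i = e
    · obtain ⟨i, rfl⟩ := he
      simp only [rho_E, bits_pm, cu_am, cv_am]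
    · have : ∀ k, rho (pm k) (some e) = 0 := fun k => by
        rw [rho_some, if_neg fun h1 => he ((mem_G0 e).1 ((pm k).2.1 e h1))]
      simp only [this, mul_zero]

theorem sum_comb (k : Fin 5 → Fin 8) (c : Fin 8 → ℕ) (h : ∀ t, ∑ r, ind (k r) t = c t) :
    ∑ r, Finsupp.single (pm (k r)) 1 = comb c := by
  unfold comb
  simp only [← h, Finset.sum_smul]
  rw [Finset.sum_comm]
  refine Finset.sum_congr rfl fun r _ => ?_
  simp only [ind, ite_smul, one_smul, zero_smul, Finset.sum_ite_eq, Finset.mem_univ, if_true]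

theorem fiber (w : Mat G0 →₀ ℕ) (hw : Finsupp.linearCombination ℕ rho w =
    Finsupp.linearCombination ℕ rho (comb cu)) : w = comb cu ∨ w = comb cv := by
  obtain ⟨f, rfl⟩ := exists_fun 5 w (by rw [← A_deg, hw, A_deg, deg_u])
  obtain ⟨k, hk, hc⟩ := fin (fun r => bits (f r)) (by
    intro r i j hij ht
    obtain ⟨x, hx, hx'⟩ := (touch_iff i j).1 ht
    unfold bits
    rw [Bool.and_eq_false_iff, decide_eq_false_iff_not, decide_eq_false_iff_not]
    by_contra hn
    push Not at hn
    exact (f r).2.2 _ hn.1 _ hn.2 (fun h => hij (E_inj h)) x hx hx') (by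
    intro i
    have := DFunLike.congr_fun hw (some (E i))
    rw [A_comb] at this
    simp only [rho_E, bits_pm, cu_am, map_sum, Finsupp.linearCombination_single, one_smul,
      Finsupp.finsetSum_apply] at this
    exact this)
  have hf : ∀ r, f r = pm (k r) := fun r => bits_inj _ _ (by rw [bits_pm]; exact hk r)
  simp only [hf]
  exact hc.imp (sum_comb k cu) (sum_comb k cv)

theorem comb_apply (c : Fin 8 → ℕ) (m : Mat G0) (h : comb c m ≠ 0) : ∃ k, pm k = m ∧ c k ≠ 0 := by
  classical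
  unfold comb at h
  rw [Finsupp.finsetSum_apply] at h
  obtain ⟨k, -, hk⟩ := Finset.exists_ne_zero_of_sum_ne_zero h
  refine ⟨k, ?_, fun h0 => hk (by simp [h0])⟩
  by_contra hne
  exact hk (by simp [hne])

theorem disj (m : Mat G0) : comb cu m = 0 ∨ comb cv m = 0 := by
  by_contra h
  push Not at h
  obtain ⟨k, h1, h2⟩ := comb_apply _ _ h.1
  obtain ⟨k', h3, h4⟩ := comb_apply _ _ h.2
  have : k = k' := pat_inj k k' fun i => by rw [← bits_pm, ← bits_pm, h1, h3]
  subst this
  rcases cu_cv k with h | h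
  · exact h2 h
  · exact h4 h

theorem result : ∃ (d : ℕ) (G : SimpleGraph (Fin d)), ∀ (K : Type) [Field K]
    (S : Set (MvPolynomial (Mat G) K)), Ideal.span S = toric K G →
      ∃ f ∈ S, 5 ≤ f.totalDegree := by
  refine ⟨10, G0, fun K _ S hS => abstract rho (comb cu) (comb cv) 4 deg_u A_uv fiber disj S ?_⟩
  rw [hS]
  unfold toric
  congr 2
  funext m
  unfold rho
  rw [← mul_one (1 : K), ← monomial_mul, monomial_sum_one]
  rfl

end Pool.Agent.Results.MP_2a9801_co.Five
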